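import Pool.Agent.E8helper1.TS.Stm

/-!
# Project TS (helper1): semisimplicity from projectors onto the fully invariant subspaces
-/

set_option autoImplicit false

namespace Pool.Agent.E8helper77.TS

variable {K V : Type} [Field K] [AddCommGroup V] [Module K V]

/-- the algebra generated by `𝓖` -/
abbrev Rg (𝓖 : Set (Module.End K V)) : Subalgebra K (Module.End K V) := Algebra.adjoin K 𝓖

theorem comm_adj {𝓖 : Set (Module.End K V)} {f : Module.End K V} (hf : ∀ g ∈ 𝓖, f * g = g * f)
    {r : Module.End K V} (hr : r ∈ Rg 𝓖) : f * r = r * f := by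
  induction hr using Algebra.adjoin_induction with
  | mem x hx => exact hf x hx
  | algebraMap c => exact (Algebra.commutes c f).symm
  | add x y _ _ hx hy => rw [mul_add, add_mul, hx, hy]
  | mul x y _ _ hx hy => rw [← mul_assoc, hx, mul_assoc, hy, mul_assoc]

/-- an endomorphism which commutes with `𝓖`, as a map of modules over the algebra -/
def lin {𝓖 : Set (Module.End K V)} (f : Module.End K V) (hf : ∀ g ∈ 𝓖, f * g = g * f) :
    V →ₗ[Rg 𝓖] V where
  toFun := f
  map_add' := map_add f
  map_smul' r x := by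
    have := comm_adj hf r.2
    exact LinearMap.congr_fun this x

/-- a stable subspace, as a submodule over the algebra -/
def stab {𝓖 : Set (Module.End K V)} (U : Submodule K V) (hU : ∀ g ∈ 𝓖, ∀ x ∈ U, g x ∈ U) :
    Submodule (Rg 𝓖) V where
  carrier := U
  add_mem' := U.add_mem
  zero_mem' := U.zero_mem
  smul_mem' r x hx := by
    have h : ∀ r ∈ Rg 𝓖, ∀ x ∈ U, r x ∈ U := by
      intro r hr
      induction hr using Algebra.adjoin_induction with
      | mem x hx => exact hU x hx
      | algebraMap c =>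
        intro x hx
        rw [Module.algebraMap_end_apply]
        exact U.smul_mem c hx
      | add a b _ _ ha hb => exact fun x hx => U.add_mem (ha x hx) (hb x hx)
      | mul a b _ _ ha hb => exact fun x hx => ha _ (hb x hx)
    exact h r.1 r.2 x hx

/-- the image of an atom is an atom or zero -/
theorem map_atom {𝓖 : Set (Module.End K V)} (f : V →ₗ[Rg 𝓖] V) {m : Submodule (Rg 𝓖) V}
    (hm : IsAtom m) : m.map f = ⊥ ∨ IsAtom (m.map f) := by
  by_cases h0 : m.map f = ⊥
  · exact Or.inl h0
  refine Or.inr ⟨h0, fun N hN => ?_⟩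
  by_contra hN0
  have h1 : N.comap f ⊓ m ≤ m := inf_le_right
  have h2 : N.comap f ⊓ m ≠ ⊥ := by
    intro h
    apply hN0
    rw [eq_bot_iff]
    intro y hy
    obtain ⟨x, hx, rfl⟩ := hN.le hy
    have : x ∈ N.comap f ⊓ m := ⟨hy, hx⟩
    rw [h, Submodule.mem_bot] at this
    rw [this, map_zero]
    exact Submodule.zero_mem _
  have h3 : N.comap f ⊓ m = m := (hm.le_iff.1 h1).resolve_left h2
  refine hN.not_ge ?_
  rintro _ ⟨x, hx, rfl⟩
  have : x ∈ N.comap f ⊓ m := by rw [h3]; exact hx
  exact this.1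

theorem t_SOC : Pool.Agent.E8helper1.TS.S_SOC := by
  intro K _ V _ _ _ 𝓖 h U hU
  have hart : IsArtinian (Rg 𝓖) V := isArtinian_of_tower K inferInstance
  -- the socle
  set S : Submodule (Rg 𝓖) V := sSup {m | IsAtom m} with hS
  have hgS : ∀ g ∈ 𝓖, ∀ x ∈ S, g x ∈ S := fun g hg x hx =>
    S.smul_mem (⟨g, Algebra.subset_adjoin hg⟩ : Rg 𝓖) hx
  have hfS : ∀ f : Module.End K V, (∀ g ∈ 𝓖, f * g = g * f) → ∀ x ∈ S, f x ∈ S := by
    intro f hf
    have h1 : S.map (lin f hf) ≤ S := by
      rw [hS, sSup_eq_iSup, Submodule.map_iSup]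
      refine iSup_le fun m => ?_
      rw [Submodule.map_iSup]
      refine iSup_le fun hm => ?_
      rcases map_atom (lin f hf) hm with h0 | h0
      · rw [h0]; exact bot_le
      · rw [← sSup_eq_iSup]
        exact le_sSup h0
    exact fun x hx => h1 ⟨x, hx, rfl⟩
  obtain ⟨a, ha, ha1, ha2⟩ := h (S.restrictScalars K) hgS hfS
  have hker : LinearMap.ker (lin a ha) = ⊥ := by
    by_contra hne
    obtain ⟨m, hm, hle⟩ := (eq_bot_or_exists_atom_le (LinearMap.ker (lin a ha))).resolve_left hne
    apply hm.1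
    rw [eq_bot_iff]
    intro x hx
    have h1 : a x = 0 := hle hx
    have h2 : a x = x := ha1 x ((le_sSup hm : m ≤ S) hx)
    rw [Submodule.mem_bot, ← h2, h1]
  have htop : S = ⊤ := by
    rw [eq_top_iff]
    intro x _
    have h1 : a x ∈ S := ha2 x
    have h2 : a (a x) = a x := ha1 _ h1
    have h3 : a x - x ∈ LinearMap.ker (lin a ha) := by
      show a (a x - x) = 0
      rw [map_sub, h2, sub_self]
    rw [hker, Submodule.mem_bot, sub_eq_zero] at h3
    rwa [h3] at h1
  have hcl : ComplementedLattice (Submodule (Rg 𝓖) V) :=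
    complementedLattice_of_sSup_atoms_eq_top htop
  obtain ⟨C, hC⟩ := hcl.exists_isCompl (stab U hU)
  refine ⟨C.restrictScalars K, fun g hg x hx =>
    C.smul_mem (⟨g, Algebra.subset_adjoin hg⟩ : Rg 𝓖) hx, ?_, ?_⟩
  · rw [Submodule.disjoint_def]
    intro x hx hx'
    have := (Submodule.disjoint_def.1 hC.disjoint) x hx hx'
    exact this
  · rw [codisjoint_iff, eq_top_iff]
    intro x _
    have h1 : x ∈ stab U hU ⊔ C := by
      rw [codisjoint_iff.1 hC.codisjoint]
      exact Submodule.mem_top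
    obtain ⟨y, hy, z, hz, rfl⟩ := Submodule.mem_sup.1 h1
    exact Submodule.add_mem_sup hy hz

end Pool.Agent.E8helper77.TS
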